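import Pool.Agent.TH381.RM2.Defs

/-!
The map of a dgsm on codes of words is computed within polynomially bounded values.
-/

set_option autoImplicit false

namespace Pool.Agent.TH440.RM2

open Pool.Agent.H584R2.Dg Pool.Agent.W614.Dg Pool.Agent.H539R2 Pool.Agent.TH381.RM2

/-- A table: the number with the digits `F 0, ..., F (N - 1)`. -/
def tb (R : ℕ) (F : ℕ → ℕ) : ℕ → ℕ
  | 0 => 0
  | N + 1 => F 0 + R * tb R (fun i => F (i + 1)) N

theorem dg_cons (R a z : ℕ) (ha : a < R) (i : ℕ) :
    dg R (a + R * z) (i + 1) = dg R z i := by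
  have hR : 0 < R := by omega
  unfold dg
  have h : (a + R * z) / R ^ (i + 1) = z / R ^ i := by
    rw [pow_succ', ← Nat.div_div_eq_div_mul]
    congr 1
    rw [Nat.add_mul_div_left _ _ hR, Nat.div_eq_of_lt ha, zero_add]
  rw [h]

theorem dg_zero (R a z : ℕ) (ha : a < R) : dg R (a + R * z) 0 = a := by
  unfold dg
  rw [pow_zero, Nat.div_one, Nat.add_mul_mod_self_left, Nat.mod_eq_of_lt ha]

theorem dg_tb (R : ℕ) (N : ℕ) : ∀ (F : ℕ → ℕ), (∀ i, F i < R) → ∀ i, i < N →
    dg R (tb R F N) i = F i := by
  induction N with
  | zero => intro F _ i hi; omega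
  | succ N ih =>
    intro F hF i hi
    cases i with
    | zero => exact dg_zero R _ _ (hF 0)
    | succ i =>
      show dg R (F 0 + R * tb R (fun i => F (i + 1)) N) (i + 1) = F (i + 1)
      rw [dg_cons R _ _ (hF 0)]
      exact ih (fun i => F (i + 1)) (fun i => hF (i + 1)) i (by omega)

section

variable {S : Type} (M : ℕ) (co : Option S → ℕ)

theorem cl_nil : cl M co [] = 0 := rfl

theorem cl_cons (x : S) (v : List S) : cl M co (x :: v) = co (some x) + M * cl M co v := by
  unfold cl
  rw [List.map_cons, Nat.ofDigits_cons]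

theorem cl_append (u v : List S) : cl M co (u ++ v) = cl M co u + cl M co v * M ^ u.length := by
  induction u with
  | nil => simp [cl_nil]
  | cons x u ih =>
    rw [List.cons_append, cl_cons, cl_cons, ih, List.length_cons, pow_succ]
    ring

variable {M co} {e : ℕ → Option S} (hc : Coding M co e)
include hc

theorem M_pos : 0 < M := by
  have := hc.lt none
  omega

theorem cl_lt (v : List S) : cl M co v < M ^ v.length := by
  induction v with
  | nil => simp [cl_nil]
  | cons x v ih =>
    rw [cl_cons, List.length_cons, pow_succ]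
    have h1 := hc.lt (some x)
    have h2 : cl M co v + 1 ≤ M ^ v.length := ih
    calc co (some x) + M * cl M co v < M + M * cl M co v := by omega
      _ = (cl M co v + 1) * M := by ring
      _ ≤ M ^ v.length * M := Nat.mul_le_mul_right _ h2

theorem dg_cl (v : List S) : ∀ i, dg M (cl M co v) i = co (v[i]?) := by
  induction v with
  | nil =>
    intro i
    rw [cl_nil]
    simp [dg, hc.none]
  | cons x v ih =>
    intro i
    rw [cl_cons]
    cases i with
    | zero => rw [dg_zero M _ _ (hc.lt _)]; simp
    | succ i => rw [dg_cons M _ _ (hc.lt _), ih i]; simp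

theorem le_cl (v : List S) : v.length ≤ cl M co v := by
  induction v with
  | nil => simp
  | cons x v ih =>
    rw [cl_cons, List.length_cons]
    have h1 := hc.some x
    have h2 : cl M co v ≤ M * cl M co v := Nat.le_mul_of_pos_left _ (M_pos hc)
    omega

end

/-- The length of the word with a given code. -/
def ln (M y : ℕ) : ℕ := ∑ i ∈ Finset.range y, if dg M y i = 0 then 0 else 1

theorem ls_ln (M : ℕ) : LS (fun ρ => ln M (ρ 0)) := by
  refine LS.sum (m := fun ρ => ρ 0) (F := fun i ρ => if dg M (ρ 0) i = 0 then 0 else 1)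
    (LS.var 0) ?_
  exact LS.ite0 (LS.dg (LS.const M) (LS.var 1) (LS.var 0)) LS.zero (LS.const 1)

theorem ln_cl {S : Type} {M : ℕ} {co : Option S → ℕ} {e : ℕ → Option S} (hc : Coding M co e)
    (v : List S) : ln M (cl M co v) = v.length := by
  unfold ln
  have h1 : ∀ i ∈ Finset.range (cl M co v), (if dg M (cl M co v) i = 0 then 0 else 1) =
      if i < v.length then 1 else 0 := by
    intro i _
    rw [dg_cl hc]
    by_cases h : i < v.length
    · rw [List.getElem?_eq_getElem h, if_neg (hc.some _), if_pos h]
    · rw [List.getElem?_eq_none (by omega), hc.none, if_pos rfl, if_neg h]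
  rw [Finset.sum_congr rfl h1, Finset.sum_ite, Finset.sum_const_zero, add_zero,
    Finset.sum_const, smul_eq_mul, mul_one]
  have h2 : Finset.filter (fun i => i < v.length) (Finset.range (cl M co v)) =
      Finset.range v.length := by
    ext i
    have := le_cl hc v
    simp only [Finset.mem_filter, Finset.mem_range]
    omega
  rw [h2, Finset.card_range]

/-- The states. -/
def st (M n a T : ℕ) (y i : ℕ) : ℕ := nrec a (fun i s => dg n T (s * M + dg M y i)) i

/-- A function of the state and the letter. -/
def lk (M n a T R U : ℕ) (y i : ℕ) : ℕ := dg R U (st M n a T y i * M + dg M y i)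

/-- The offset. -/
def off (M n a T R U : ℕ) (y i : ℕ) : ℕ := ∑ j ∈ Finset.range i, lk M n a T R U y j

/-- The map. -/
def mp (M n a T R U R' U' : ℕ) (X y : ℕ) : ℕ :=
  ∑ i ∈ Finset.range (ln M y), lk M n a T R' U' y i * powT X M (off M n a T R U y i)

theorem ls_st (M n a T : ℕ) (hn : 0 < n) : LS (fun ρ => st M n a T (ρ 0) (ρ 1)) := by
  refine LS.nrecB (c := fun ρ => ρ 1) (a := fun _ => a)
    (b := fun i s ρ => dg n T (s * M + dg M (ρ 0) i)) (g := fun _ => n + a)
    (LS.var 1) (LS.const a) ?_ (LS.const (n + a)) ?_
  · exact LS.dg (LS.const n) (LS.const T) (((LS.var 0).mul (LS.const M)).add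
      (LS.dg (LS.const M) (LS.var 2) (LS.var 1)))
  · intro ρ m _
    cases m with
    | zero => simp
    | succ m =>
      rw [nrec_succ]
      have := dg_lt n T (nrec a (fun i s => dg n T (s * M + dg M (ρ 0) i)) m * M +
        dg M (ρ 0) m) hn
      omega

theorem ls_lk (M n a T R U : ℕ) (hn : 0 < n) : LS (fun ρ => lk M n a T R U (ρ 0) (ρ 1)) :=
  LS.dg (LS.const R) (LS.const U) (((ls_st M n a T hn).mul (LS.const M)).add
    (LS.dg (LS.const M) (LS.var 0) (LS.var 1)))

theorem ls_off (M n a T R U : ℕ) (hn : 0 < n) : LS (fun ρ => off M n a T R U (ρ 0) (ρ 1)) := by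
  refine LS.sum (m := fun ρ => ρ 1) (F := fun j ρ => lk M n a T R U (ρ 0) j)
    (LS.var 1) ?_
  exact LS.comp2 (F := fun x y => lk M n a T R U x y) (ls_lk M n a T R U hn) (LS.var 1) (LS.var 0)

theorem ls_mp (M n a T R U R' U' : ℕ) (hn : 0 < n) :
    LS (fun ρ => mp M n a T R U R' U' (ρ 0) (ρ 1)) := by
  refine LS.sum (m := fun ρ => ln M (ρ 1))
    (F := fun i ρ => lk M n a T R' U' (ρ 1) i * powT (ρ 0) M (off M n a T R U (ρ 1) i)) ?_ ?_
  · exact LS.comp1 (F := fun y => ln M y) (ls_ln M) (LS.var 1)
  · refine LS.mul ?_ ?_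
    · exact LS.comp2 (F := fun x y => lk M n a T R' U' x y) (ls_lk M n a T R' U' hn)
        (LS.var 2) (LS.var 0)
    · exact LS.powT (LS.var 1) (LS.const M)
        (LS.comp2 (F := fun x y => off M n a T R U x y) (ls_off M n a T R U hn)
          (LS.var 2) (LS.var 0))

theorem run_length_le {S : Type} (τ : Dgsm S) (K : ℕ) (hK : ∀ q x, (τ.out q x).length ≤ K)
    (v : List S) : ∀ q, (τ.run q v).length ≤ K * v.length := by
  induction v with
  | nil => intro q; simp [Dgsm.run]
  | cons x v ih =>
    intro q
    have h1 := hK q x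
    have h2 := ih (τ.next q x)
    simp only [Dgsm.run, List.length_append, List.length_cons]
    rw [mul_add, mul_one]
    omega

theorem core {S : Type} (τ : Dgsm S) (M : ℕ) (co : Option S → ℕ) (e : ℕ → Option S)
    (hc : Coding M co e) (n a T R U R' U' : ℕ) (code : τ.Q → ℕ) (ha : a = code τ.init)
    (h1 : ∀ q x, dg n T (code q * M + co (some x)) = code (τ.next q x))
    (h2 : ∀ q x, dg R U (code q * M + co (some x)) = (τ.out q x).length)
    (h3 : ∀ q x, dg R' U' (code q * M + co (some x)) = cl M co (τ.out q x))
    (v : List S) : ∀ i, i ≤ v.length →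
      st M n a T (cl M co v) i = code (stAfter τ τ.init (v.take i)) ∧
      off M n a T R U (cl M co v) i = (τ.run τ.init (v.take i)).length ∧
      ∑ j ∈ Finset.range i, lk M n a T R' U' (cl M co v) j *
        M ^ off M n a T R U (cl M co v) j = cl M co (τ.run τ.init (v.take i)) := by
  intro i
  induction i with
  | zero =>
    intro _
    refine ⟨?_, ?_, ?_⟩
    · simp only [st, nrec_zero, List.take_zero, stAfter]; exact ha
    · simp [off, Dgsm.run]
    · simp [Dgsm.run, cl_nil]
  | succ i ih =>
    intro hi
    obtain ⟨e1, e2, e3⟩ := ih (by omega)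
    have hlt : i < v.length := by omega
    have htake : v.take (i + 1) = v.take i ++ [v[i]] := by
      rw [List.take_succ_eq_append_getElem hlt]
    have hd : dg M (cl M co v) i = co (some v[i]) := by
      rw [dg_cl hc, List.getElem?_eq_getElem hlt]
    have el : lk M n a T R U (cl M co v) i =
        (τ.out (stAfter τ τ.init (v.take i)) v[i]).length := by
      unfold lk
      rw [e1, hd, h2]
    have eo : lk M n a T R' U' (cl M co v) i =
        cl M co (τ.out (stAfter τ τ.init (v.take i)) v[i]) := by
      unfold lk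
      rw [e1, hd, h3]
    have hrun : τ.run τ.init (v.take (i + 1)) = τ.run τ.init (v.take i) ++
        τ.out (stAfter τ τ.init (v.take i)) v[i] := by
      rw [htake, run_append]
      simp [Dgsm.run]
    refine ⟨?_, ?_, ?_⟩
    · have : st M n a T (cl M co v) (i + 1) =
          dg n T (st M n a T (cl M co v) i * M + dg M (cl M co v) i) := rfl
      rw [this, e1, hd, h1, htake, stAfter_append]
      rfl
    · have : off M n a T R U (cl M co v) (i + 1) = off M n a T R U (cl M co v) i +
          lk M n a T R U (cl M co v) i := by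
        unfold off
        rw [Finset.sum_range_succ]
      rw [this, e2, el, hrun, List.length_append]
    · rw [Finset.sum_range_succ, e3, eo, e2, hrun, cl_append]

theorem map_code : SMap := by
  intro S _ τ K M co e _ hK _ hc
  have hM : 0 < M := M_pos hc
  have := τ.finQ
  obtain ⟨n, ⟨eq⟩⟩ := Finite.exists_equiv_fin τ.Q
  have hn : 0 < n := lt_of_le_of_lt (Nat.zero_le _) (eq τ.init).2
  -- coding and decoding of states
  let code : τ.Q → ℕ := fun q => (eq q : ℕ)
  have hcode : ∀ q, code q < n := fun q => (eq q).2
  let dec : ℕ → τ.Q := fun s => if h : s < n then eq.symm ⟨s, h⟩ else τ.init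
  have hdec : ∀ q, dec (code q) = q := by
    intro q
    show (if h : (eq q : ℕ) < n then eq.symm ⟨(eq q : ℕ), h⟩ else τ.init) = q
    rw [dif_pos (eq q).2]
    simp
  have hmod : ∀ q x, (code q * M + co (some x)) % M = co (some x) := by
    intro q x
    rw [mul_comm, Nat.mul_add_mod, Nat.mod_eq_of_lt (hc.lt _)]
  have hdiv : ∀ q x, (code q * M + co (some x)) / M = code q := by
    intro q x
    rw [mul_comm, Nat.mul_add_div hM, Nat.div_eq_of_lt (hc.lt _), add_zero]
  have hb : ∀ q x, code q * M + co (some x) < n * M := by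
    intro q x
    have e1 := hc.lt (some x)
    have e2 : code q + 1 ≤ n := hcode q
    calc code q * M + co (some x) < code q * M + M := by omega
      _ = (code q + 1) * M := by ring
      _ ≤ n * M := Nat.mul_le_mul_right _ e2
  -- the functions in the tables
  let F1 : ℕ → ℕ := fun j => match e (j % M) with
    | none => 0
    | some x => code (τ.next (dec (j / M)) x)
  let F2 : ℕ → ℕ := fun j => match e (j % M) with
    | none => 0
    | some x => (τ.out (dec (j / M)) x).length
  let F3 : ℕ → ℕ := fun j => match e (j % M) with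
    | none => 0
    | some x => cl M co (τ.out (dec (j / M)) x)
  have hF1 : ∀ j, F1 j < n := by
    intro j
    show (match e (j % M) with
      | none => 0
      | some x => code (τ.next (dec (j / M)) x)) < n
    split
    · exact hn
    · exact hcode _
  have hF2 : ∀ j, F2 j < K + 1 := by
    intro j
    show (match e (j % M) with
      | none => 0
      | some x => (τ.out (dec (j / M)) x).length) < K + 1
    split
    · omega
    · exact Nat.lt_succ_of_le (hK _ _)
  have hF3 : ∀ j, F3 j < M ^ K := by
    intro j
    show (match e (j % M) with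
      | none => 0
      | some x => cl M co (τ.out (dec (j / M)) x)) < M ^ K
    split
    · exact Nat.pow_pos hM
    · exact (cl_lt hc _).trans_le (Nat.pow_le_pow_right hM (hK _ _))
  have k1 : ∀ q x, F1 (code q * M + co (some x)) = code (τ.next q x) := by
    intro q x
    show (match e ((code q * M + co (some x)) % M) with
      | none => 0
      | some z => code (τ.next (dec ((code q * M + co (some x)) / M)) z)) = _
    rw [hmod, hdiv, hc.inv, hdec]
  have k2 : ∀ q x, F2 (code q * M + co (some x)) = (τ.out q x).length := by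
    intro q x
    show (match e ((code q * M + co (some x)) % M) with
      | none => 0
      | some z => (τ.out (dec ((code q * M + co (some x)) / M)) z).length) = _
    rw [hmod, hdiv, hc.inv, hdec]
  have k3 : ∀ q x, F3 (code q * M + co (some x)) = cl M co (τ.out q x) := by
    intro q x
    show (match e ((code q * M + co (some x)) % M) with
      | none => 0
      | some z => cl M co (τ.out (dec ((code q * M + co (some x)) / M)) z)) = _
    rw [hmod, hdiv, hc.inv, hdec]
  refine ⟨mp M n (code τ.init) (tb n F1 (n * M)) (K + 1) (tb (K + 1) F2 (n * M)) (M ^ K)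
    (tb (M ^ K) F3 (n * M)), ln M, ls_mp _ _ _ _ _ _ _ _ hn, ls_ln M, ln_cl hc, dg_cl hc,
    cl_lt hc, ?_⟩
  intro X v hX
  have hcore := core τ M co e hc n (code τ.init) (tb n F1 (n * M)) (K + 1)
    (tb (K + 1) F2 (n * M)) (M ^ K) (tb (M ^ K) F3 (n * M)) code rfl
    (fun q x => by rw [dg_tb n (n * M) F1 hF1 _ (hb q x), k1])
    (fun q x => by rw [dg_tb (K + 1) (n * M) F2 hF2 _ (hb q x), k2])
    (fun q x => by rw [dg_tb (M ^ K) (n * M) F3 hF3 _ (hb q x), k3]) v
  unfold mp
  rw [ln_cl hc]
  have hsum := (hcore v.length le_rfl).2.2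
  rw [List.take_length] at hsum
  rw [show τ.map v = τ.run τ.init v from rfl, ← hsum]
  refine Finset.sum_congr rfl ?_
  intro i hi
  rw [Finset.mem_range] at hi
  have hoff := (hcore i hi.le).2.1
  have hle : off M n (code τ.init) (tb n F1 (n * M)) (K + 1) (tb (K + 1) F2 (n * M))
      (cl M co v) i ≤ K * v.length + 1 := by
    rw [hoff]
    have h1 := run_length_le τ K hK (v.take i) τ.init
    have h2 : (v.take i).length ≤ v.length := by
      rw [List.length_take]; exact min_le_right _ _
    have h3 : K * (v.take i).length ≤ K * v.length := Nat.mul_le_mul_left _ h2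
    omega
  rw [powT_eq X M _ hM ((Nat.pow_le_pow_right hM hle).trans hX)]

end Pool.Agent.TH440.RM2
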